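import Mathlib
import Pool.Agent.Q201.Val3

set_option autoImplicit false

/-!
# The trichotomy fails for automatic subsets of the integers

Let `X` be the set of all integers `3 ^ j * (3 * u + 1)` (`j ∈ ℕ`, `u ∈ ℤ`).  It is recognized by a
finite automaton in base 3.  The structure `(ℤ, +, X)` is unstable, and no formula with
parameters separates all the powers `3 ^ n` from all the negative integers `3 ^ n * u` with `u` close
to `1`; so neither the order, nor the set of powers of 3, nor the function `V_3` is definable.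
-/

namespace Pool.Agent.Results.MP_df2971_lc.TrichotomyFails

open FirstOrder FirstOrder.Language
open Pool.Agent.Q201.Val3

/-! ### Automata -/

/-- The word over `{-, 0, ..., k-1}` (`none` is the sign `-`) representing the integer `n` in base `k`,
most significant digit first. -/
def word (k : ℕ) [NeZero k] (n : ℤ) : List (Option (Fin k)) :=
  (if n < 0 then [none] else []) ++
    (if n = 0 then [some 0] else (Nat.digits k n.natAbs).reverse.map fun d => some (Fin.ofNat k d))

/-- `X` is recognized by a finite automaton over `{-, 0, ..., k-1}`. -/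
def Recognized (k : ℕ) [NeZero k] (X : Set ℤ) : Prop :=
  Language.IsRegular ({w | ∃ n ∈ X, w = word k n} : _root_.Language (Option (Fin k)))

/-! ### Structures on the integers -/

/-- Function symbols: one binary function. -/
inductive AddFunc : ℕ → Type
  | add : AddFunc 2

/-- Relation symbols of `(ℤ, +, X)`: one unary predicate. -/
inductive XRel : ℕ → Type
  | X : XRel 1

/-- Relation symbols of `(ℤ, <, +, P)`: a binary relation and a unary predicate. -/
inductive PRel : ℕ → Type
  | lt : PRel 2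
  | P : PRel 1

/-- The language of `(ℤ, +, X)`. -/
def LX : FirstOrder.Language := ⟨AddFunc, XRel⟩

/-- The language of `(ℤ, <, +, P)`. -/
def LP : FirstOrder.Language := ⟨AddFunc, PRel⟩

/-- The structure `(ℤ, +, X)`. -/
@[reducible] def structX (X : Set ℤ) : LX.Structure ℤ where
  funMap := fun {_} f x => match f with
    | .add => x 0 + x 1
  RelMap := fun {_} r x => match r with
    | .X => x 0 ∈ X

/-- The structure `(ℤ, <, +, P)`. -/
@[reducible] def structP (P : Set ℤ) : LP.Structure ℤ where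
  funMap := fun {_} f x => match f with
    | .add => x 0 + x 1
  RelMap := fun {_} r x => match r with
    | .lt => x 0 < x 1
    | .P => x 0 ∈ P

/-- `s` is definable in the structure `S` with parameters. -/
def DefinableIn {L : FirstOrder.Language} {M : Type} (S : L.Structure M) {n : ℕ}
    (s : Set (Fin n → M)) : Prop :=
  ∃ (m : ℕ) (c : Fin m → M) (φ : L.Formula (Fin m ⊕ Fin n)), ∀ x, x ∈ s ↔ φ.Realize (Sum.elim c x)

/-- Stability: no formula has the order property (by compactness it is equivalent to say that for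
every formula the finite chains in the structure have bounded length). -/
def Stable {L : FirstOrder.Language} {M : Type} (S : L.Structure M) : Prop :=
  ∀ (m n : ℕ) (φ : L.Formula (Fin m ⊕ Fin n)), ¬ ∀ N : ℕ, ∃ (a : Fin N → Fin m → M)
    (b : Fin N → Fin n → M), ∀ i j, φ.Realize (Sum.elim (a i) (b j)) ↔ i < j

/-- `k^ℕ` -/
def powers (k : ℕ) : Set ℤ := {x | ∃ j : ℕ, x = (k : ℤ) ^ j}

/-- `V_k(n)`, the largest power of `k` dividing `n` (and 1 for `n = 0`). -/
def V (k : ℕ) (n : ℤ) : ℤ := (k : ℤ) ^ padicValInt k n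

/-- `(ℤ, +, X)` and `(ℤ, <, +, k^ℕ)` define the same sets. -/
def SameDefinable (k : ℕ) (X : Set ℤ) : Prop :=
  ∀ (n : ℕ) (s : Set (Fin n → ℤ)), DefinableIn (structX X) s ↔ DefinableIn (structP (powers k)) s

/-- `(ℤ, +, X)` defines `V_k`. -/
def DefinesV (k : ℕ) (X : Set ℤ) : Prop :=
  DefinableIn (structX X) {x : Fin 2 → ℤ | x 1 = V k (x 0)}

/-- `(ℤ, +, X)` defines the order of the integers. -/
def DefinesOrder (X : Set ℤ) : Prop :=
  DefinableIn (structX X) {x : Fin 2 → ℤ | x 0 < x 1}

/-- The integers of the form `3 ^ j * (3 * u + 1)`. -/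
def X₃ : Set ℤ := {n | ∃ (j : ℕ) (u : ℤ), n = 3 ^ j * (3 * u + 1)}

theorem mem_X₃ {n : ℤ} : n ∈ X₃ ↔ ac n = 1 := by
  constructor
  · rintro ⟨j, u, rfl⟩
    have h : ¬ (3 : ℤ) ∣ 3 * u + 1 := by omega
    rw [ac_form _ h]
    have h3 : (3 : ZMod 3) = 0 := by decide
    push_cast
    rw [h3]; ring
  · intro h
    have hn : n ≠ 0 := by rintro rfl; rw [ac_zero] at h; exact absurd h (by decide)
    obtain ⟨j, u, rfl, hu⟩ := exists_form hn
    rw [ac_form _ hu] at h
    have h1 : (3 : ℤ) ∣ u - 1 := by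
      have : ((u - 1 : ℤ) : ZMod 3) = 0 := by push_cast; rw [h]; ring
      rwa [ZMod.intCast_zmod_eq_zero_iff_dvd] at this
    obtain ⟨t, ht⟩ := h1
    exact ⟨j, t, by rw [show u = 3 * t + 1 by omega]⟩

/-! ### Formulas -/

local instance instX : LX.Structure ℤ := structX X₃

theorem term_mem {α : Type} {n : ℕ} (t : LX.Term (α ⊕ Fin n)) : ∃ K : ℕ, ∀ (l : List (ℤ × ℤ))
    (v v' : α → ℤ) (xs xs' : Fin n → ℤ), (∀ i, (v i, v' i) ∈ l) →
    (∀ j, (xs j, xs' j) ∈ l) →
    ((t.realize (Sum.elim v xs) : ℤ), (t.realize (Sum.elim v' xs') : ℤ)) ∈ PS K l := by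
  induction t with
  | var i =>
    refine ⟨1, fun l v v' xs xs' hv hxs => ?_⟩
    rcases i with i | j
    · exact PS_mem (hv i)
    · exact PS_mem (hxs j)
  | @func k f ts ih =>
    cases f with
    | add =>
      obtain ⟨K₀, h0⟩ := ih 0
      obtain ⟨K₁, h1⟩ := ih 1
      refine ⟨K₀ + K₁, fun l v v' xs xs' hv hxs => ?_⟩
      have := PS_comb 1 1 l _ (h0 l v v' xs xs' hv hxs) _ (h1 l v v' xs xs' hv hxs)
      simp only [one_mul, abs_one] at this
      push_cast
      exact this

theorem main {α : Type} {n : ℕ} (φ : LX.BoundedFormula α n) : ∃ (K D : ℕ) (M : ℤ),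
    IsCoprime M 3 ∧ ∀ (l : List (ℤ × ℤ)), Sim K D M l →
    ∀ (v v' : α → ℤ) (xs xs' : Fin n → ℤ), (∀ i, (v i, v' i) ∈ l) →
    (∀ j, (xs j, xs' j) ∈ l) → (φ.Realize v xs ↔ φ.Realize v' xs') := by
  induction φ with
  | falsum => exact ⟨0, 0, 1, isCoprime_one_left, fun _ _ _ _ _ _ _ _ => Iff.rfl⟩
  | @equal n t₁ t₂ =>
    obtain ⟨K₁, h1⟩ := term_mem t₁
    obtain ⟨K₂, h2⟩ := term_mem t₂
    refine ⟨K₁ + K₂, 0, 1, isCoprime_one_left, fun l hS v v' xs xs' hv hxs => ?_⟩
    have h := PS_comb 1 (-1) l _ (h1 l v v' xs xs' hv hxs) _ (h2 l v v' xs xs' hv hxs)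
    simp only [one_mul, abs_one, abs_neg] at h
    have h3 := hS.ne_zero (p := _) (by push_cast; exact h)
    simp only at h3
    change t₁.realize (Sum.elim v xs) = t₂.realize (Sum.elim v xs) ↔
      t₁.realize (Sum.elim v' xs') = t₂.realize (Sum.elim v' xs')
    constructor
    · intro h4
      have h5 : (t₁.realize (Sum.elim v xs) : ℤ) = t₂.realize (Sum.elim v xs) := h4
      have : (t₁.realize (Sum.elim v' xs') : ℤ) = t₂.realize (Sum.elim v' xs') := by
        have := h3.1 (by rw [h5]; ring)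
        linarith
      exact this
    · intro h4
      have h5 : (t₁.realize (Sum.elim v' xs') : ℤ) = t₂.realize (Sum.elim v' xs') := h4
      have : (t₁.realize (Sum.elim v xs) : ℤ) = t₂.realize (Sum.elim v xs) := by
        have := h3.2 (by rw [h5]; ring)
        linarith
      exact this
  | @rel n k r ts =>
    cases r with
    | X =>
      obtain ⟨K, h⟩ := term_mem (ts 0)
      refine ⟨K, 0, 1, isCoprime_one_left, fun l hS v v' xs xs' hv hxs => ?_⟩
      have h1 := hS.ac _ (h l v v' xs xs' hv hxs)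
      simp only at h1
      change ((ts 0).realize (Sum.elim v xs) : ℤ) ∈ X₃ ↔ ((ts 0).realize (Sum.elim v' xs') : ℤ) ∈ X₃
      rw [mem_X₃, mem_X₃, h1]
  | @imp n f g ihf ihg =>
    obtain ⟨K₁, D₁, M₁, hM₁, h1⟩ := ihf
    obtain ⟨K₂, D₂, M₂, hM₂, h2⟩ := ihg
    refine ⟨max K₁ K₂, max D₁ D₂, M₁ * M₂, hM₁.mul_left hM₂, fun l hS v v' xs xs' hv hxs => ?_⟩
    have e1 := h1 l (hS.mono (by push_cast; exact le_max_left _ _) (le_max_left _ _)
      (dvd_mul_right _ _)) v v' xs xs' hv hxs
    have e2 := h2 l (hS.mono (by push_cast; exact le_max_right _ _) (le_max_right _ _)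
      (dvd_mul_left _ _)) v v' xs xs' hv hxs
    rw [BoundedFormula.realize_imp, BoundedFormula.realize_imp, e1, e2]
  | @all n f ih =>
    obtain ⟨K, D, M, hM, h⟩ := ih
    obtain ⟨K', D', M', hM', hext⟩ := extend K D hM
    refine ⟨K', D', M', hM', fun l hS v v' xs xs' hv hxs => ?_⟩
    rw [BoundedFormula.realize_all, BoundedFormula.realize_all]
    have step : ∀ (l : List (ℤ × ℤ)), ∀ (v v' : α → ℤ) (xs xs' : Fin n → ℤ),
        (∀ i, (v i, v' i) ∈ l) → (∀ j, (xs j, xs' j) ∈ l) →
        ∀ x y : ℤ, Sim K D M ((x, y) :: l) →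
        (f.Realize v (Fin.snoc (α := fun _ => ℤ) xs x) ↔
          f.Realize v' (Fin.snoc (α := fun _ => ℤ) xs' y)) := by
      intro l v v' xs xs' hv hxs x y hxy
      refine h _ hxy v v' _ _ (fun i => List.mem_cons_of_mem _ (hv i)) (fun j => ?_)
      refine Fin.lastCases ?_ (fun j => ?_) j
      · rw [Fin.snoc_last, Fin.snoc_last]; exact List.mem_cons_self
      · rw [Fin.snoc_castSucc, Fin.snoc_castSucc]; exact List.mem_cons_of_mem _ (hxs j)
    constructor
    · intro H y
      obtain ⟨x, hx⟩ := hext _ hS.swap y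
      have hx' := hx.swap
      simp only [List.map_cons, Prod.swap_prod_mk, List.map_map] at hx'
      have e : List.map (Prod.swap ∘ Prod.swap) l = l := by simp
      rw [e] at hx'
      exact (step l v v' xs xs' hv hxs x y hx').1 (H x)
    · intro H x
      obtain ⟨y, hy⟩ := hext _ hS x
      exact (step l v v' xs xs' hv hxs x y hy).2 (H y)

/-- the pairs of equal integers -/
theorem PS_diag (K : ℤ) (l : List (ℤ × ℤ)) (hl : ∀ p ∈ l, p.1 = p.2) :
    ∀ p ∈ PS K l, p.1 = p.2 := by
  induction l with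
  | nil => rintro p ⟨c, -, rfl⟩; rfl
  | cons q l ih =>
    rintro p ⟨w, hw, m, -, rfl⟩
    simp only
    rw [ih (fun p hp => hl p (List.mem_cons_of_mem _ hp)) w hw, hl q List.mem_cons_self]

/-- A positive power of 3 and a negative integer satisfying the same instance of a formula. -/
theorem exists_pair {m n : ℕ} (φ : LX.Formula (Fin m ⊕ Fin n)) (c : Fin m → ℤ) :
    ∃ (N : ℕ) (u : ℤ), u < 0 ∧ ¬ (3 : ℤ) ∣ u ∧ (φ.Realize (Sum.elim c fun _ => 3 ^ N) ↔
      φ.Realize (Sum.elim c fun _ => 3 ^ N * u)) := by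
  obtain ⟨K, D, M, hM, h⟩ := main φ
  let l₀ : List (ℤ × ℤ) := List.ofFn fun i => (c i, c i)
  have hl₀ : ∀ p ∈ l₀, p.1 = p.2 := by
    intro p hp
    obtain ⟨i, rfl⟩ := (List.mem_ofFn' _ _).1 hp
    rfl
  -- a bound for the combinations of the parameters
  obtain ⟨B, hB⟩ : ∃ B : ℕ, ∀ p ∈ PS (K : ℤ) l₀, v p.1 < B := by
    obtain ⟨B, hB⟩ := ((PS_finite K l₀).image fun p => v p.1).bddAbove
    refine ⟨(B + 1).toNat, fun p hp => ?_⟩
    have := hB ⟨p, hp, rfl⟩
    simp only at this
    omega
  have hM0 : M ≠ 0 := by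
    rintro rfl
    rw [isCoprime_zero_left] at hM
    exact absurd hM (by decide)
  let u : ℤ := 1 - 3 * M ^ 2
  have hMpos : 0 < M ^ 2 := by positivity
  have hu : u < 0 := by simp only [u]; omega
  have hu3 : ¬ (3 : ℤ) ∣ u := by simp only [u]; omega
  have hu0 : u ≠ 0 := hu.ne
  refine ⟨B, u, hu, hu3, ?_⟩
  have hacu : ac u = 1 := by
    have := ac_form 0 hu3
    rw [pow_zero, one_mul] at this
    rw [this]
    simp only [u]
    have h3 : (3 : ZMod 3) = 0 := by decide
    push_cast
    rw [h3]; ring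
  have hvu : v u = 0 := by
    have := v_form 0 hu3
    rwa [pow_zero, one_mul] at this
  have h3B : (3 : ℤ) ^ B ≠ 0 := by positivity
  have hv3B : v ((3 : ℤ) ^ B) = B := by
    have := v_form B (u := 1) (by decide)
    rwa [mul_one] at this
  have key : ∀ p ∈ PS (K : ℤ) ((3 ^ B, 3 ^ B * u) :: l₀), ac p.1 = ac p.2 ∧ v p.1 = v p.2 ∧
      M ∣ p.1 - p.2 := by
    rintro p ⟨w, hw, k, -, rfl⟩
    have hww := PS_diag K l₀ hl₀ w hw
    have hdvd : M ∣ w.1 + k * 3 ^ B - (w.2 + k * (3 ^ B * u)) := by
      rw [← hww]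
      exact ⟨3 * M * k * 3 ^ B, by simp only [u]; ring⟩
    simp only at hdvd ⊢
    rw [← hww] at hdvd ⊢
    by_cases hk : k = 0
    · subst hk
      simp only [zero_mul, add_zero] at hdvd ⊢
      exact ⟨trivial, trivial, hdvd⟩
    have h1 : k * (3 : ℤ) ^ B ≠ 0 := mul_ne_zero hk h3B
    have h2 : k * ((3 : ℤ) ^ B * u) ≠ 0 := mul_ne_zero hk (mul_ne_zero h3B hu0)
    have h3 : v (k * (3 : ℤ) ^ B) = v k + B := by rw [v_mul hk h3B, hv3B]
    have h4 : v (k * ((3 : ℤ) ^ B * u)) = v k + B := by
      rw [v_mul hk (mul_ne_zero h3B hu0), v_mul h3B hu0, hv3B, hvu]; ring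
    have h5 : ac (k * ((3 : ℤ) ^ B * u)) = ac (k * (3 : ℤ) ^ B) := by
      rw [ac_mul, ac_mul, ac_mul, hacu, mul_one]
    by_cases hw0 : w.1 = 0
    · rw [hw0] at hdvd ⊢
      simp only [zero_add] at hdvd ⊢
      exact ⟨h5.symm, by rw [h3, h4], hdvd⟩
    · have h6 : v w.1 < v k + B := by
        have := hB w hw
        have := v_nonneg k
        omega
      obtain ⟨a1, a2⟩ := add_lt hw0 h1 (by rw [h3]; exact h6)
      obtain ⟨b1, b2⟩ := add_lt hw0 h2 (by rw [h4]; exact h6)
      exact ⟨by rw [a2, b2], by rw [a1, b1], hdvd⟩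
  have hS : Sim K D M ((3 ^ B, 3 ^ B * u) :: l₀) :=
    { ac := fun p hp => (key p hp).1
      cong := fun p hp => (key p hp).2.2
      val := fun p hp q hq _ _ => Or.inl (by rw [(key p hp).2.1, (key q hq).2.1]) }
  unfold Formula.Realize
  refine h _ hS _ _ _ _ ?_ (fun j => j.elim0)
  rintro (i | j)
  · refine List.mem_cons_of_mem _ ((List.mem_ofFn' _ _).2 ⟨i, rfl⟩)
  · exact List.mem_cons_self

theorem not_powers (u : ℤ) (hu : u < 0) (N : ℕ) : (3 : ℤ) ^ N * u < 0 :=
  mul_neg_of_pos_of_neg (by positivity) hu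

theorem not_definable {n : ℕ} {s : Set (Fin n → ℤ)} (h1 : ∀ N : ℕ, (fun _ => 3 ^ N) ∈ s)
    (h2 : ∀ (N : ℕ) (u : ℤ), u < 0 → ¬ (3 : ℤ) ∣ u → (fun _ => 3 ^ N * u) ∉ s) :
    ¬ DefinableIn (structX X₃) s := by
  rintro ⟨m, c, φ, h⟩
  obtain ⟨N, u, hu, hu3, hφ⟩ := exists_pair φ c
  exact h2 N u hu hu3 ((h _).2 (hφ.1 ((h _).1 (h1 N))))

/-- powers of 3 are not definable -/
theorem powers_not_definable : ¬ DefinableIn (structX X₃) {x : Fin 1 → ℤ | x 0 ∈ powers 3} := by
  refine not_definable (fun N => ⟨N, by norm_num⟩) ?_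
  rintro N u hu - ⟨j, hj⟩
  have h1 := not_powers u hu N
  have h2 : (0 : ℤ) < ((3 : ℕ) : ℤ) ^ j := by positivity
  simp only at hj
  omega

theorem not_same : ¬ SameDefinable 3 X₃ := by
  intro h
  refine powers_not_definable ((h 1 _).2 ⟨0, Fin.elim0, Relations.formula₁ (PRel.P : LP.Relations 1)
    (Term.var (Sum.inr 0)), fun x => ?_⟩)
  exact Iff.rfl

theorem not_definesV : ¬ DefinesV 3 X₃ := by
  refine not_definable (fun N => ?_) ?_
  · change (3 : ℤ) ^ N = V 3 (3 ^ N)
    unfold V
    have h := val_form N (u := 1) (by decide)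
    rw [mul_one] at h
    rw [h]; norm_num
  · intro N u hu hu3 h
    have h1 : (3 : ℤ) ^ N * u = V 3 (3 ^ N * u) := h
    unfold V at h1
    have h2 := not_powers u hu N
    have h3 : (0 : ℤ) < ((3 : ℕ) : ℤ) ^ padicValInt 3 (3 ^ N * u) := by positivity
    omega

/-- positive integers are not definable -/
theorem not_definesOrder : ¬ DefinesOrder X₃ := by
  rintro ⟨m, c, φ, h⟩
  -- substitute `0` for the first variable
  let c' : Fin (m + 1) → ℤ := Fin.snoc (α := fun _ => ℤ) c 0
  let g : Fin m ⊕ Fin 2 → Fin (m + 1) ⊕ Fin 1 := fun i => match i with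
    | Sum.inl i => Sum.inl i.castSucc
    | Sum.inr j => if j = 0 then Sum.inl (Fin.last m) else Sum.inr 0
  have h1 : DefinableIn (structX X₃) {x : Fin 1 → ℤ | 0 < x 0} := by
    refine ⟨m + 1, c', φ.relabel g, fun x => ?_⟩
    rw [Formula.realize_relabel]
    have h2 := h ![0, x 0]
    have h3 : (Sum.elim c' x) ∘ g = Sum.elim c ![0, x 0] := by
      funext i
      rcases i with i | j
      · simp [g, c', Fin.snoc_castSucc]
      · fin_cases j
        · simp [g, c', Fin.snoc_last]
        · simp [g]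
    rw [h3, ← h2]
    exact Iff.rfl
  refine not_definable (fun N => ?_) ?_ h1
  · change (0 : ℤ) < 3 ^ N
    positivity
  · intro N u hu _ h2
    have h3 := not_powers u hu N
    have h4 : (0 : ℤ) < 3 ^ N * u := h2
    omega

/-- the sum function symbol applied to two variables, and the predicate `X` -/
theorem not_stable : ¬ Stable (structX X₃) := by
  intro h
  let t : LX.Term (Fin 1 ⊕ Fin 1) := Functions.apply₂ (AddFunc.add : LX.Functions 2)
    (Term.var (Sum.inl 0)) (Term.var (Sum.inr 0))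
  refine h 1 1 (Relations.formula₁ (XRel.X : LX.Relations 1) t) fun N =>
    ⟨fun i _ => 3 ^ (i.val + 1), fun j _ => 3 ^ j.val * 2, fun i j => ?_⟩
  change (3 : ℤ) ^ (i.val + 1) + 3 ^ j.val * 2 ∈ X₃ ↔ i < j
  rw [mem_X₃]
  have h0 : (3 : ℤ) ^ (i.val + 1) ≠ 0 := by positivity
  have h0' : (3 : ℤ) ^ j.val * 2 ≠ 0 := by positivity
  have hv1 : v ((3 : ℤ) ^ (i.val + 1)) = (i.val + 1 : ℕ) ∧ ac ((3 : ℤ) ^ (i.val + 1)) = 1 := by
    have h1 := v_form (i.val + 1) (u := 1) (by decide)
    have h2 := ac_form (i.val + 1) (u := 1) (by decide)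
    rw [mul_one] at h1 h2
    exact ⟨h1, by rw [h2]; norm_num⟩
  have hv2 : v ((3 : ℤ) ^ j.val * 2) = (j.val : ℕ) ∧ ac ((3 : ℤ) ^ j.val * 2) = 2 := by
    exact ⟨v_form j.val (u := 2) (by decide), by rw [ac_form j.val (u := 2) (by decide)]; norm_num⟩
  rw [Fin.lt_def]
  rcases lt_trichotomy (i.val + 1) j.val with hlt | heq | hgt
  · have := (add_lt h0 h0' (by rw [hv1.1, hv2.1]; exact_mod_cast hlt)).2
    rw [this, hv1.2]
    exact ⟨fun _ => by omega, fun _ => rfl⟩
  · have : (3 : ℤ) ^ (i.val + 1) + 3 ^ j.val * 2 = 3 ^ (j.val + 1) * 1 := by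
      rw [heq]; ring
    rw [this, ac_form _ (by decide)]
    refine ⟨fun _ => by omega, fun _ => by norm_num⟩
  · have := (add_lt h0' h0 (by rw [hv1.1, hv2.1]; exact_mod_cast hgt)).2
    rw [add_comm, this, hv2.2]
    exact ⟨fun h => absurd h (by decide), fun h => by omega⟩

/-! ### The automaton -/

/-- The transition function; the states are `0`: start, `1`: after the sign, `2`, `3`: positive with last
nonzero digit `1`, `2`; `4`, `5`: negative with last nonzero digit `1`, `2`; `6`: rejecting. -/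
def stp (s : Fin 7) (a : Option (Fin 3)) : Fin 7 :=
  match s, a with
  | 0, none => 1
  | 0, some 1 => 2
  | 0, some 2 => 3
  | 1, some 1 => 4
  | 1, some 2 => 5
  | 2, some 0 => 2
  | 2, some 1 => 2
  | 2, some 2 => 3
  | 3, some 0 => 3
  | 3, some 1 => 2
  | 3, some 2 => 3
  | 4, some 0 => 4
  | 4, some 1 => 4
  | 4, some 2 => 5
  | 5, some 0 => 5
  | 5, some 1 => 4
  | 5, some 2 => 5
  | _, _ => 6

/-- The automaton. -/
def A : DFA (Option (Fin 3)) (Fin 7) := ⟨stp, 0, {2, 5}⟩

/-- the digits of a natural number, most significant digit first -/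
def posw (n : ℕ) : List (Option (Fin 3)) :=
  (Nat.digits 3 n).reverse.map fun d => some (Fin.ofNat 3 d)

theorem posw_zero : posw 0 = [] := by simp [posw]

theorem posw_succ (n d : ℕ) (hd : d < 3) (h : 0 < 3 * n + d) :
    posw (3 * n + d) = posw n ++ [some (Fin.ofNat 3 d)] := by
  have h1 : Nat.digits 3 (3 * n + d) = d :: Nat.digits 3 n := by
    rw [Nat.digits_def' (by norm_num) h]
    congr 1
    · omega
    · congr 1; omega
  rw [posw, h1]
  simp [posw]

theorem ac_succ (n : ℕ) : ac ((3 * n : ℕ) : ℤ) = ac n ∧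
    ac ((3 * n + 1 : ℕ) : ℤ) = 1 ∧ ac ((3 * n + 2 : ℕ) : ℤ) = 2 := by
  have h3 : (3 : ZMod 3) = 0 := by decide
  refine ⟨?_, ?_, ?_⟩
  · push_cast
    rw [ac_mul]
    have := ac_form 1 (u := 1) (by decide)
    rw [pow_one, mul_one] at this
    rw [this]; push_cast; ring
  · have h1 : ¬ (3 : ℤ) ∣ ((3 * n + 1 : ℕ) : ℤ) := by omega
    have := ac_form 0 h1
    rw [pow_zero, one_mul] at this
    rw [this]; push_cast; rw [h3]; ring
  · have h1 : ¬ (3 : ℤ) ∣ ((3 * n + 2 : ℕ) : ℤ) := by omega
    have := ac_form 0 h1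
    rw [pow_zero, one_mul] at this
    rw [this]; push_cast; rw [h3]; ring

theorem eval_posw (n : ℕ) (hn : 0 < n) :
    (ac (n : ℤ) = 1 ∧ A.evalFrom 0 (posw n) = 2 ∧ A.evalFrom 1 (posw n) = 4) ∨
    (ac (n : ℤ) = 2 ∧ A.evalFrom 0 (posw n) = 3 ∧ A.evalFrom 1 (posw n) = 5) := by
  induction n using Nat.strong_induction_on with
  | _ n ih =>
    obtain ⟨m, d, hd, rfl⟩ : ∃ m d, d < 3 ∧ n = 3 * m + d := ⟨n / 3, n % 3, by omega, by omega⟩
    obtain ⟨a0, a1, a2⟩ := ac_succ m
    rw [posw_succ m d hd hn, DFA.evalFrom_append_singleton, DFA.evalFrom_append_singleton]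
    by_cases hm : m = 0
    · subst hm
      rw [posw_zero]
      interval_cases d
      · omega
      · exact Or.inl ⟨a1, rfl, rfl⟩
      · exact Or.inr ⟨a2, rfl, rfl⟩
    · rcases ih m (by omega) (by omega) with ⟨h1, h2, h3⟩ | ⟨h1, h2, h3⟩
      · rw [h2, h3]
        interval_cases d
        · exact Or.inl ⟨by rw [add_zero, a0, h1], rfl, rfl⟩
        · exact Or.inl ⟨a1, rfl, rfl⟩
        · exact Or.inr ⟨a2, rfl, rfl⟩
      · rw [h2, h3]
        interval_cases d
        · exact Or.inr ⟨by rw [add_zero, a0, h1], rfl, rfl⟩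
        · exact Or.inl ⟨a1, rfl, rfl⟩
        · exact Or.inr ⟨a2, rfl, rfl⟩

theorem eval_inv (w : List (Option (Fin 3))) :
    (A.evalFrom 0 w = 0 → w = []) ∧ (A.evalFrom 0 w = 1 → w = [none]) ∧
    (A.evalFrom 0 w = 2 ∨ A.evalFrom 0 w = 3 → ∃ n, 0 < n ∧ w = posw n) ∧
    (A.evalFrom 0 w = 4 ∨ A.evalFrom 0 w = 5 → ∃ n, 0 < n ∧ w = none :: posw n) := by
  induction w using List.reverseRecOn with
  | nil => exact ⟨fun _ => rfl, fun h => absurd h (by decide), fun h => absurd h (by decide),
      fun h => absurd h (by decide)⟩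
  | append_singleton w a ih =>
    obtain ⟨i0, i1, i2, i3⟩ := ih
    rw [DFA.evalFrom_append_singleton]
    have p1 : posw 1 = [some 1] := by
      have := posw_succ 0 1 (by norm_num) (by norm_num)
      rw [posw_zero] at this; exact this
    have p2 : posw 2 = [some 2] := by
      have := posw_succ 0 2 (by norm_num) (by norm_num)
      rw [posw_zero] at this; exact this
    have pd : ∀ (n : ℕ) (d : Fin 3), 0 < n → ∃ m, 0 < m ∧ posw n ++ [some d] = posw m := by
      intro n d hn
      refine ⟨3 * n + d.val, by omega, ?_⟩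
      rw [posw_succ n d.val d.isLt (by omega)]
      congr 3
      exact (Fin.ofNat_val_eq_self d).symm
    -- cases on the previous state
    generalize hs : A.evalFrom 0 w = s at i0 i1 i2 i3 ⊢
    fin_cases s
    · -- start
      have hw := i0 rfl
      subst hw
      rcases a with _ | a
      · exact ⟨fun h => absurd h (by decide), fun _ => rfl, fun h => absurd h (by decide),
          fun h => absurd h (by decide)⟩
      · fin_cases a
        · exact ⟨fun h => absurd h (by decide), fun h => absurd h (by decide),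
            fun h => absurd h (by decide), fun h => absurd h (by decide)⟩
        · exact ⟨fun h => absurd h (by decide), fun h => absurd h (by decide),
            fun _ => ⟨1, by norm_num, p1.symm⟩, fun h => absurd h (by decide)⟩
        · exact ⟨fun h => absurd h (by decide), fun h => absurd h (by decide),
            fun _ => ⟨2, by norm_num, p2.symm⟩, fun h => absurd h (by decide)⟩
    · have hw := i1 rfl
      subst hw
      rcases a with _ | a
      · exact ⟨fun h => absurd h (by decide), fun h => absurd h (by decide),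
          fun h => absurd h (by decide), fun h => absurd h (by decide)⟩
      · fin_cases a
        · exact ⟨fun h => absurd h (by decide), fun h => absurd h (by decide),
            fun h => absurd h (by decide), fun h => absurd h (by decide)⟩
        · exact ⟨fun h => absurd h (by decide), fun h => absurd h (by decide),
            fun h => absurd h (by decide), fun _ => ⟨1, by norm_num, by rw [p1]; rfl⟩⟩
        · exact ⟨fun h => absurd h (by decide), fun h => absurd h (by decide),
            fun h => absurd h (by decide), fun _ => ⟨2, by norm_num, by rw [p2]; rfl⟩⟩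
    · obtain ⟨n, hn, rfl⟩ := i2 (by decide)
      rcases a with _ | a
      · exact ⟨fun h => absurd h (by decide), fun h => absurd h (by decide),
          fun h => absurd h (by decide), fun h => absurd h (by decide)⟩
      · obtain ⟨m, hm, hm'⟩ := pd n a hn
        refine ⟨?_, ?_, fun _ => ⟨m, hm, hm'⟩, ?_⟩ <;>
        · fin_cases a <;> exact fun h => absurd h (by decide)
    · obtain ⟨n, hn, rfl⟩ := i2 (by decide)
      rcases a with _ | a
      · exact ⟨fun h => absurd h (by decide), fun h => absurd h (by decide),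
          fun h => absurd h (by decide), fun h => absurd h (by decide)⟩
      · obtain ⟨m, hm, hm'⟩ := pd n a hn
        refine ⟨?_, ?_, fun _ => ⟨m, hm, hm'⟩, ?_⟩ <;>
        · fin_cases a <;> exact fun h => absurd h (by decide)
    · obtain ⟨n, hn, rfl⟩ := i3 (by decide)
      rcases a with _ | a
      · exact ⟨fun h => absurd h (by decide), fun h => absurd h (by decide),
          fun h => absurd h (by decide), fun h => absurd h (by decide)⟩
      · obtain ⟨m, hm, hm'⟩ := pd n a hn
        refine ⟨?_, ?_, ?_, fun _ => ⟨m, hm, by rw [List.cons_append, hm']⟩⟩ <;>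
        · fin_cases a <;> exact fun h => absurd h (by decide)
    · obtain ⟨n, hn, rfl⟩ := i3 (by decide)
      rcases a with _ | a
      · exact ⟨fun h => absurd h (by decide), fun h => absurd h (by decide),
          fun h => absurd h (by decide), fun h => absurd h (by decide)⟩
      · obtain ⟨m, hm, hm'⟩ := pd n a hn
        refine ⟨?_, ?_, ?_, fun _ => ⟨m, hm, by rw [List.cons_append, hm']⟩⟩ <;>
        · fin_cases a <;> exact fun h => absurd h (by decide)
    · rcases a with _ | a
      · exact ⟨fun h => absurd h (by decide), fun h => absurd h (by decide),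
          fun h => absurd h (by decide), fun h => absurd h (by decide)⟩
      · fin_cases a <;> exact ⟨fun h => absurd h (by decide), fun h => absurd h (by decide),
          fun h => absurd h (by decide), fun h => absurd h (by decide)⟩

theorem word_pos (n : ℕ) (hn : 0 < n) : word 3 (n : ℤ) = posw n := by
  unfold word
  rw [if_neg (by omega), if_neg (by omega)]
  simp [posw]

theorem word_neg (n : ℕ) (hn : 0 < n) : word 3 (-(n : ℤ)) = none :: posw n := by
  unfold word
  rw [if_pos (by omega), if_neg (by omega)]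
  simp [posw]

theorem recognized : Recognized 3 X₃ := by
  refine ⟨Fin 7, inferInstance, A, ?_⟩
  ext w
  change A.evalFrom 0 w ∈ ({2, 5} : Set (Fin 7)) ↔ ∃ n ∈ X₃, w = word 3 n
  constructor
  · rintro (h | h)
    · obtain ⟨n, hn, rfl⟩ := (eval_inv w).2.2.1 (Or.inl h)
      refine ⟨n, ?_, (word_pos n hn).symm⟩
      rw [mem_X₃]
      rcases eval_posw n hn with h1 | h1
      · exact h1.1
      · rw [h1.2.1] at h; exact absurd h (by decide)
    · obtain ⟨n, hn, rfl⟩ := (eval_inv w).2.2.2 (Or.inr h)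
      refine ⟨-n, ?_, (word_neg n hn).symm⟩
      rw [mem_X₃, ac_neg]
      have h2 : A.evalFrom 1 (posw n) = 5 := h
      rcases eval_posw n hn with h1 | h1
      · rw [h1.2.2] at h2; exact absurd h2 (by decide)
      · rw [h1.1]; decide
  · rintro ⟨n, hn, rfl⟩
    rw [mem_X₃] at hn
    rcases lt_trichotomy n 0 with h | h | h
    · obtain ⟨m, rfl⟩ : ∃ m : ℕ, n = -(m : ℤ) := ⟨n.natAbs, by omega⟩
      have hm : 0 < m := by omega
      rw [word_neg m hm]
      right
      change A.evalFrom 1 (posw m) = 5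
      rw [ac_neg] at hn
      rcases eval_posw m hm with h1 | h1
      · rw [h1.1] at hn; exact absurd hn (by decide)
      · exact h1.2.2
    · subst h
      rw [ac_zero] at hn; exact absurd hn (by decide)
    · obtain ⟨m, rfl⟩ : ∃ m : ℕ, n = (m : ℤ) := ⟨n.natAbs, by omega⟩
      have hm : 0 < m := by omega
      rw [word_pos m hm]
      left
      rcases eval_posw m hm with h1 | h1
      · exact h1.2.1
      · rw [h1.1] at hn; exact absurd hn (by decide)

/-- For `k = 3` and the set `X` of the integers `3 ^ j * (3 * u + 1)`, which is recognized by a finite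
automaton, the structure `(ℤ, +, X)` is not stable, it does not define the same sets as
`(ℤ, <, +, 3^ℕ)`, it does not define `V_3`, and it does not even define the order of the integers. -/
theorem result : Recognized 3 X₃ ∧ ¬ Stable (structX X₃) ∧ ¬ SameDefinable 3 X₃ ∧
    ¬ DefinesV 3 X₃ ∧ ¬ DefinesOrder X₃ :=
  ⟨recognized, not_stable, not_same, not_definesV, not_definesOrder⟩

end Pool.Agent.Results.MP_df2971_lc.TrichotomyFails
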